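import Pool.Agent.Helper99.SZ.Stmts
import Pool.Agent.Helper60.BK.HALLQ

set_option autoImplicit false

namespace Pool.Helper99.SZ

open NumberField

theorem st_HPL (h1 : ST_NNC) : ST_HPL := by
  obtain ⟨C, hC⟩ := BK.st_HALLP
  set L : ℝ := Real.log 1728 with hL
  have hL0 : 0 ≤ L := Real.log_nonneg (by norm_num)
  refine ⟨max 1 (6 * |C| * (1 + L) ^ 19), le_max_left _ _, ?_⟩
  intro W hW
  have hd : -(1728 * W.Δ) ≠ 0 := by
    intro h
    apply hW
    omega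
  have hrel : W.c₆ ^ 2 = W.c₄ ^ 3 + -(1728 * W.Δ) := by
    have := W.c_relation
    linarith
  have h2 := hC _ _ _ hd hrel
  have h3 : ((BK.NN W.c₄ (-(1728 * W.Δ)) : ℕ) : ℝ) ≤ 36 * (cond W : ℝ) := by
    exact_mod_cast h1 W hW
  have h4 : Real.sqrt (BK.NN W.c₄ (-(1728 * W.Δ)) : ℝ) ≤ 6 * Real.sqrt (cond W) := by
    have h5 : Real.sqrt (36 * (cond W : ℝ)) = 6 * Real.sqrt (cond W) := by
      rw [Real.sqrt_mul (by norm_num)]
      congr 1
      rw [show (36 : ℝ) = 6 ^ 2 by norm_num]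
      exact Real.sqrt_sq (by norm_num)
    rw [← h5]
    exact Real.sqrt_le_sqrt h3
  have hD1 : (1 : ℝ) ≤ |(W.Δ : ℝ)| := by
    have : (1 : ℤ) ≤ |W.Δ| := Int.one_le_abs hW
    exact_mod_cast this
  have hlD : 0 ≤ Real.log |(W.Δ : ℝ)| := Real.log_nonneg hD1
  have h6 : Real.log |((-(1728 * W.Δ) : ℤ) : ℝ)| = L + Real.log |(W.Δ : ℝ)| := by
    push_cast
    rw [abs_neg, abs_mul, Real.log_mul (by norm_num) (by positivity), abs_of_pos (by norm_num)]
  rw [h6] at h2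
  have h7 : (1 + (L + Real.log |(W.Δ : ℝ)|)) ^ 19 ≤ ((1 + L) * (1 + Real.log |(W.Δ : ℝ)|)) ^ 19 := by
    apply pow_le_pow_left₀ (by positivity)
    nlinarith [mul_nonneg hL0 hlD]
  have hs0 : 0 ≤ Real.sqrt (cond W) := Real.sqrt_nonneg _
  calc Real.log |(W.c₄ : ℝ)|
      ≤ C * Real.sqrt (BK.NN W.c₄ (-(1728 * W.Δ)) : ℝ) * (1 + (L + Real.log |(W.Δ : ℝ)|)) ^ 19 := h2
    _ ≤ |C| * Real.sqrt (BK.NN W.c₄ (-(1728 * W.Δ)) : ℝ) *
          (1 + (L + Real.log |(W.Δ : ℝ)|)) ^ 19 := by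
        apply mul_le_mul_of_nonneg_right _ (by positivity)
        exact mul_le_mul_of_nonneg_right (le_abs_self C) (Real.sqrt_nonneg _)
    _ ≤ |C| * (6 * Real.sqrt (cond W)) * ((1 + L) * (1 + Real.log |(W.Δ : ℝ)|)) ^ 19 := by
        apply mul_le_mul _ h7 (by positivity) (by positivity)
        exact mul_le_mul_of_nonneg_left h4 (abs_nonneg C)
    _ = (6 * |C| * (1 + L) ^ 19) * Real.sqrt (cond W) * (1 + Real.log |(W.Δ : ℝ)|) ^ 19 := by
        rw [mul_pow]; ring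
    _ ≤ max 1 (6 * |C| * (1 + L) ^ 19) * Real.sqrt (cond W) *
          (1 + Real.log |(W.Δ : ℝ)|) ^ 19 := by
        apply mul_le_mul_of_nonneg_right _ (by positivity)
        exact mul_le_mul_of_nonneg_right (le_max_right _ _) hs0

end Pool.Helper99.SZ
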