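import Pool.Agent.Helper99.SZ.Stmts4
import Pool.Agent.Helper39.SZ.OD3

set_option autoImplicit false

/-! MP_bde085_nt, module QOD: one-dimensionality of the quotients by the conjugates, quadratic
fields. -/

namespace Pool.Helper99.SZ

open NumberField

/-- the homomorphism `y ↦ y / τ y` -/
noncomputable def qod_psi {K : Type} [Field K] (τ : K →+* K) : Kˣ →* Kˣ :=
  MonoidHom.id Kˣ / Units.map (τ : K →* K)

theorem qod_psi_val {K : Type} [Field K] (τ : K →+* K) (y : Kˣ) :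
    ((qod_psi τ y : Kˣ) : K) = (y : K) / τ (y : K) := by
  simp [qod_psi, Units.val_div_eq_div_val]

/-- the units of a valuation -/
def qod_H {K : Type} [Field K] [NumberField K] {P : Ideal (𝓞 K)} {v : Kˣ → ℤ}
    (hv : IsVal P v) : Subgroup Kˣ where
  carrier := {y | v y = 0}
  mul_mem' := by
    intro a b ha hb
    simp only [Set.mem_setOf_eq] at ha hb ⊢
    rw [hv.mul, ha, hb, add_zero]
  one_mem' := by
    have h := hv.mul 1 1
    rw [one_mul] at h
    simp only [Set.mem_setOf_eq]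
    omega
  inv_mem' := by
    intro a ha
    simp only [Set.mem_setOf_eq] at ha ⊢
    have h1 := hv.mul 1 1
    rw [one_mul] at h1
    have h := hv.mul a a⁻¹
    rw [mul_inv_cancel] at h
    omega

theorem st_QOD (hV : ST_QOV) (hB : ST_ODB) (hval : ST_VAL) (h1 : ST_DVB) : ST_QOD := by
  intro K _ _ τ β a b m p P 𝔞 hQD q v Q hq hQQ n jj s hsu hjj hs T
  obtain ⟨vQ, hvQ⟩ := hval K Q hQQ.pr hQQ.bot
  obtain ⟨E, hE, hE2, hEp, h3⟩ := hV K τ β a b m p P 𝔞 hQD q v Q hq hQQ vQ hvQ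
  obtain ⟨d0, dmono, dadd, dneg, dmul, done, dzpow, dmul1, _⟩ := h1 K Q hQQ.pr hQQ.bot
  have hq0 : ((q : ℕ) : K) ≠ 0 := by exact_mod_cast hq.ne_zero
  have hDE : Dv Q E ((q : ℕ) : K) := by
    have := (hvQ.dv E (Units.mk0 _ hq0)).2 (by rw [hEp (Units.mk0 _ hq0) rfl])
    simpa using this
  have hr1 : 1 ≤ (E + 1) / 2 := by omega
  -- the power twelve
  have hmain : ∃ a0 : ℕ, 1 ≤ a0 ∧ E < (q - 1) * a0 ∧
      (∀ x : K, Dv Q ((E + 1) / 2) (x - 1) → Dv Q a0 (x ^ 12 - 1)) := by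
    have hpw : ∀ x : K, Dv Q ((E + 1) / 2) (x - 1) → ∀ k : ℕ,
        Dv Q ((E + 1) / 2) (x ^ k - 1) := by
      intro x hx k
      have := dzpow _ x (k : ℤ) hr1 hx
      simpa using this
    have hcase : q = 2 ∨ q = 3 ∨ 5 ≤ q := by
      by_contra hcon
      push Not at hcon
      obtain ⟨h4, h5, h6⟩ := hcon
      have h7 := hq.two_le
      have h8 : q = 4 := by omega
      rw [h8] at hq
      exact absurd hq (by norm_num)
    rcases hcase with h2 | h2 | h2
    · refine ⟨E + E, by omega, by rw [h2]; omega, ?_⟩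
      intro x hx
      have hD2 : Dv Q E (2 : K) := by rw [h2] at hDE; simpa using hDE
      have h4 := hpw x hx 3
      have h5 : Dv Q E (x ^ 6 - 1) := by
        have e1 : x ^ 6 - 1 = (x ^ 3 - 1) * ((x ^ 3 - 1) + 2) := by ring
        rw [e1]
        exact dmono E _ _ (by omega) (dmul _ _ _ _ h4 (dadd _ _ _ h4
          (dmono ((E + 1) / 2) E _ (by omega) hD2)))
      have e1 : x ^ 12 - 1 = (x ^ 6 - 1) * ((x ^ 6 - 1) + 2) := by ring
      rw [e1]
      exact dmul _ _ _ _ h5 (dadd _ _ _ h5 hD2)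
    · refine ⟨(E + 1) / 2 + E, by omega, by rw [h2]; omega, ?_⟩
      intro x hx
      have hD3 : Dv Q E (3 : K) := by rw [h2] at hDE; simpa using hDE
      have h4 := hpw x hx 4
      have h0 : Dv Q 0 (x ^ 4) := (done _ (dmono 1 _ _ hr1 h4)).2.1
      have e1 : x ^ 12 - 1 = (x ^ 4 - 1) * ((x ^ 4 - 1) * (x ^ 4 - 1) + 3 * x ^ 4) := by ring
      rw [e1]
      refine dmul _ _ _ _ h4 (dadd _ _ _ (dmono E _ _ (by omega) (dmul _ _ _ _ h4 h4)) ?_)
      have := dmul _ _ _ _ hD3 h0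
      simpa using this
    · refine ⟨(E + 1) / 2, hr1, ?_, ?_⟩
      · have h4 : 4 ≤ q - 1 := by omega
        calc E < 4 * ((E + 1) / 2) := by omega
          _ ≤ (q - 1) * ((E + 1) / 2) := Nat.mul_le_mul_right _ h4
      · intro x hx
        exact hpw x hx 12
  obtain ⟨a0, ha0, hEa, hx12⟩ := hmain
  have hfun : (fun i => (((s i : Kˣ) : K) / τ ((s i : Kˣ) : K)) ^ 12) =
      fun i => ((qod_psi τ (s i ^ 12) : Kˣ) : K) := by
    funext i
    rw [map_pow, Units.val_pow_eq_pow_val, qod_psi_val]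
  have hsH : ∀ i, s i ^ 12 ∈ qod_H hvQ := by
    intro i
    apply Subgroup.pow_mem
    obtain ⟨x, hx⟩ := hsu i
    obtain ⟨⟨h4, h5⟩, _⟩ := hQQ.un (s i) x hx
    have h6 : (0 : ℤ) ≤ vQ (s i) := by
      have := (hvQ.dv 0 (s i)).1 h4
      simpa using this
    have h7 : (0 : ℤ) ≤ vQ (s i)⁻¹ := by
      have := (hvQ.dv 0 (s i)⁻¹).1 (by rw [Units.val_inv_eq_inv_val]; exact h5)
      simpa using this
    have h8 := hvQ.mul (s i) (s i)⁻¹
    have h9 := hvQ.mul 1 1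
    rw [mul_inv_cancel] at h8
    rw [one_mul] at h9
    change vQ (s i) = 0
    omega
  rw [hfun]
  refine od3_core h1 Q hQQ.pr hQQ.bot vQ hvQ q E a0 ha0 ((qod_H hvQ).map (qod_psi τ)) ?_ ?_ n
    (fun i => qod_psi τ (s i ^ 12)) (fun i => ⟨_, hsH i, rfl⟩) ?_ jj ?_ T
  · intro x a' ha' hx j c0
    exact hB K Q hQQ.pr hQQ.bot q hq E a' hE
      (lt_of_lt_of_le hEa (Nat.mul_le_mul_left _ ha')) hDE x hx j c0
  · rintro φ ⟨y, hy, rfl⟩ u ⟨y', hy', rfl⟩ x x' hx hx' h5 h6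
    have ha0' : (1 : ℤ) ≤ (a0 : ℤ) := by exact_mod_cast ha0
    exact h3 y y' x x' hy hy' (by rw [hx, qod_psi_val]) (by rw [hx', qod_psi_val]) (by omega) h6
  · intro i
    have h5 := hx12 _ (dmono ((E + 1) / 2) jj _ (by omega) (hs i))
    rw [map_pow, Units.val_pow_eq_pow_val, qod_psi_val]
    exact h5
  · intro i
    have h5 := dzpow jj _ (12 : ℤ) hjj (hs i)
    rw [map_pow, Units.val_pow_eq_pow_val, qod_psi_val]
    exact_mod_cast h5

end Pool.Helper99.SZ
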