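import Pool.Agent.Helper60.SZ.ZVQ
import Pool.Agent.Helper99.SZ.Stmts2

/-! Primes coming out of the zero estimate, with the number of removed coordinates. -/

set_option autoImplicit false

namespace Pool.Helper99.SZ

open MvPolynomial

open ZVQ in
theorem st_ZQ2 : ST_ZQ2 := by
  classical
  intro v K Lc hK hL q hqp hq0 hqk H hH w hw
  obtain ⟨hwv, hexp, -⟩ := st_ZVQ v K Lc hK hL q hqp hq0 hqk H hH w hw
  refine ⟨hwv, hexp, ?_⟩
  set V : Submodule ℚ (Fin v → ℚ) := Submodule.span ℚ {u : Fin v → ℚ | ∃ h ∈ H,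
      u = fun i => ((h.1 i : ℤ) : ℚ)} with hV
  obtain ⟨J, hJi, hJ⟩ := st_JEX v w V hw.symm
  have hdual := jex_dual V hw.symm J hJ
  choose b hbV hb1 hb0 using hdual
  have hbD : ∀ i, Trs.Dst (tv v) (cv (b i)) q := fun i => mem_Dp Trs.H79.jorT hH (hbV i)
  have h1 := ind_add Trs.del J b hbD hb1 hb0 ∅ (fun j hj => absurd hj (Finset.notMem_empty j))
    (ind_empty hqk) Finset.univ
  rw [Finset.union_empty] at h1
  set J0 : Finset (Fin (v + 1)) := Finset.univ.image (fun i => Fin.castSucc (J i)) with hJ0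
  have hcJ0 : J0.card = w := by
    rw [hJ0, Finset.card_image_of_injective _
      (f := fun i => Fin.castSucc (J i)) ((Fin.castSucc_injective v).comp hJi),
      Finset.card_univ, Fintype.card_fin]
  obtain ⟨I, hI, hImax⟩ := Finset.exists_max_image
    (Finset.univ.filter fun I : Finset (Fin (v + 1)) => J0 ⊆ I ∧ Trs.Ind q I) Finset.card
    ⟨J0, Finset.mem_filter.2 ⟨Finset.mem_univ _, Finset.Subset.refl _, h1⟩⟩
  obtain ⟨-, hJI, hII⟩ := Finset.mem_filter.1 hI
  refine ⟨I, ⟨hII, fun i hi hcon => ?_⟩, ?_, ?_⟩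
  · have h2 := hImax (insert i I) (Finset.mem_filter.2 ⟨Finset.mem_univ _,
      hJI.trans (Finset.subset_insert _ _), hcon⟩)
    rw [Finset.card_insert_of_notMem hi] at h2
    omega
  · have h2 := Finset.card_le_card hJI
    rw [Finset.card_compl, Fintype.card_fin]
    omega
  · have hle : ∏ i ∈ Iᶜ, (if i = Fin.last v then Lc else K) ≤
        ∏ i ∈ J0ᶜ, (if i = Fin.last v then Lc else K) := by
      refine Finset.prod_le_prod_of_subset_of_one_le' (Finset.compl_subset_compl.2 hJI) ?_
      intro i _ _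
      split_ifs
      · exact hL
      · exact hK
    refine hle.trans (le_of_eq ?_)
    have hlastJ : Fin.last v ∈ J0ᶜ := by
      rw [Finset.mem_compl, hJ0, Finset.mem_image]
      rintro ⟨k, -, hk⟩
      exact Fin.castSucc_ne_last _ hk
    rw [← Finset.mul_prod_erase _ _ hlastJ, if_pos rfl, mul_comm]
    congr 1
    rw [Finset.prod_congr rfl (g := fun _ => K) (fun i hi => if_neg (Finset.ne_of_mem_erase hi)),
      Finset.prod_const, Finset.card_erase_of_mem hlastJ, Finset.card_compl, hcJ0,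
      Fintype.card_fin]
    congr 1
    omega

end Pool.Helper99.SZ
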